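import Mathlib
import Pool.Agent.K3h17.HQ.Main

/-!
# The Hilbert property of the linear quotients `V / H` and the inverse Galois problem

Let `k` be a finitely generated field of characteristic zero (for example a number field).

* For a finite group `H` the following are equivalent: for all linear actions of `H` on `k^N` (all
  `N`) all integral `k`-schemes, locally of finite type, with function field
  `k(x_1, ..., x_N)^H` (the models of `V / H`) have the Hilbert property over `k`; all powers `H^m`
  are Galois groups over `k`.
* The Hilbert property for the linear quotients `V / H` of all finite groups `H` over `k` is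
  EQUIVALENT to the inverse Galois problem over `k`.

`HilbertProperty k X p` (file `Pool/Agent/W560/HP/Stm2.lean`) is the Hilbert property of the
`k`-scheme `X` with structure morphism `p`, with covers of degree `> 1`, `HilbertPropertyIso`
(file `Pool/Agent/R70/HC/Defs.lean`) the same with covers which are not isomorphisms, and
`toFF k X p` is the embedding of `k` into the function field of `X`.
-/

set_option autoImplicit false

open AlgebraicGeometry CategoryTheory MvPolynomial
open W560.HP (HilbertProperty toFF)
open Pool.Agent.R70.HC (HilbertPropertyIso)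

namespace Pool.Agent.Results.MP_87f965_ag.LinearQuotients

/-- `k` is a finitely generated field of characteristic zero. -/
def FinitelyGenerated (k : Type) [Field k] [CharZero k] : Prop :=
  ∃ S : Finset k, IntermediateField.adjoin ℚ (S : Set k) = ⊤

/-- `A` is the Galois group of a finite Galois extension of `k`. -/
def IsGaloisGroup (k A : Type) [Field k] [Group A] : Prop :=
  ∃ (M : Type) (_ : Field M) (_ : Algebra k M), FiniteDimensional k M ∧ IsGalois k M ∧
    Nonempty ((M ≃ₐ[k] M) ≃* A)

/-- The rational function `z` in `x_1, ..., x_N` is invariant under the linear substitutions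
`x ↦ ρ(h) x`: whenever `z = p / q` with polynomials `p`, `q`, then
`p(ρ(h) x) q(x) = p(x) q(ρ(h) x)` for all `h`. -/
def IsInvariant {k H : Type} [Field k] [Group H] {N : ℕ} (ρ : H →* GL (Fin N) k)
    (z : FractionRing (MvPolynomial (Fin N) k)) : Prop :=
  ∀ (h : H) (p q : MvPolynomial (Fin N) k), q ≠ 0 → z * algebraMap _ _ q = algebraMap _ _ p →
    aeval (fun i => ∑ j, C ((ρ h : Matrix (Fin N) (Fin N) k) i j) * X j) p * q =
      p * aeval (fun i => ∑ j, C ((ρ h : Matrix (Fin N) (Fin N) k) i j) * X j) q

/-- The function field of the integral `k`-scheme `X` is the field of the invariant rational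
functions in `x_1, ..., x_N` (as an extension of `k`). -/
def IsQuotientModel (k : Type) [Field k] {H : Type} [Group H] {N : ℕ} (ρ : H →* GL (Fin N) k)
    (X : Scheme.{0}) [IsIntegral X] (p : X ⟶ Spec (CommRingCat.of k)) : Prop :=
  ∃ e : X.functionField →+* FractionRing (MvPolynomial (Fin N) k),
    (∀ a : k, e (toFF k X p a) = algebraMap (MvPolynomial (Fin N) k) _ (C a)) ∧
    Set.range e = {z | IsInvariant ρ z}

/-- For all linear actions `ρ` of `H` on `k^N`, `N` arbitrary, all integral `k`-schemes `X`, locally
of finite type, with function field `k(x_1, ..., x_N)^H` have the Hilbert property (if `X` is normal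
also in the form with covers that are not isomorphisms). -/
def QuotientsHP (k H : Type) [Field k] [Group H] : Prop :=
  ∀ (N : ℕ) (ρ : H →* GL (Fin N) k) (X : Scheme.{0}) (_ : IsIntegral X)
    (p : X ⟶ Spec (CommRingCat.of k)), LocallyOfFiniteType p → IsQuotientModel k ρ X p →
      HilbertProperty k X p ∧
        ((∀ x : X, IsIntegrallyClosed (X.presheaf.stalk x)) → HilbertPropertyIso k X p)

theorem result (k : Type) [Field k] [CharZero k] (hk : FinitelyGenerated k) :
    (∀ (H : Type) [Group H] [Finite H],
      QuotientsHP k H ↔ ∀ m : ℕ, IsGaloisGroup k (Fin m → H)) ∧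
    ((∀ (H : Type) [Group H] [Finite H], QuotientsHP k H) ↔
      ∀ (H : Type) [Group H] [Finite H], IsGaloisGroup k H) :=
  ⟨fun H _ _ => K3h17.HQ.main_iff k hk H, K3h17.HQ.main_igp k hk⟩

end Pool.Agent.Results.MP_87f965_ag.LinearQuotients
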