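import Pool.Agent.K3h34.HP.All

/-!
# The Hilbert property for 100% of the Fano complete intersections over `ℚ`

Let `s ≥ 1`, `d 0, …, d (s - 1) ≥ 2`, `n ≥ 3` and `d 0 + … + d (s - 1) ≤ n`. The smooth complete
intersections `X_f ⊂ ℙⁿ` of `s` hypersurfaces of the degrees `d j` are then Fano varieties of
dimension at least two and algebraically simply connected. Among those `X_f` which have points over
the real numbers and over all the `p`-adic fields, `f = (f 0, …, f (s - 1))` running over the systems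
of integral forms with coefficients bounded by `H`, a proportion tending to `1` as `H → ∞` has the
Hilbert property up to complexity `m(H)`, where `m(H) → ∞`: there are rational points of `X_f`
outside all the thin subsets of `X_f(ℚ)` of complexity at most `m(H)`; these points can even be
chosen within `1 / m(H)` of arbitrary points of `X_f` over the real numbers and over the `p`-adic
fields with `p ≤ m(H)`.
-/

set_option autoImplicit false

namespace Pool.Agent.Results.MP_87f965_ag.RandomCompleteIntersections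

open Polynomial Filter

/-- The systems of `s` forms of the degrees `d j` in the variables `x₀, …, xₙ` whose coefficients
are integers of absolute value at most `H`. -/
def Systems {s : ℕ} (n : ℕ) (d : Fin s → ℕ) (H : ℕ) :
    Set (Fin s → MvPolynomial (Fin (n + 1)) ℤ) :=
  {f | ∀ j, (f j).IsHomogeneous (d j) ∧ ∀ u, |(f j).coeff u| ≤ (H : ℤ)}

/-- `x` represents a point over the field `K` of the subscheme `X_f : f 0 = … = f (s - 1) = 0` of
`ℙⁿ`. -/
def IsPoint {s n : ℕ} {K : Type} [Field K] (f : Fin s → MvPolynomial (Fin (n + 1)) ℤ)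
    (x : Fin (n + 1) → K) : Prop :=
  x ≠ 0 ∧ ∀ j, MvPolynomial.aeval x (f j) = 0

/-- `X_f` is a smooth complete intersection: at every point of `X_f` over a field of characteristic
zero the gradients of the forms `f j` are linearly independent. -/
def Smooth {s n : ℕ} (f : Fin s → MvPolynomial (Fin (n + 1)) ℤ) : Prop :=
  ∀ (K : Type) [Field K] [CharZero K] (x : Fin (n + 1) → K), IsPoint f x →
    LinearIndependent K (fun (j : Fin s) (i : Fin (n + 1)) =>
      MvPolynomial.aeval x (MvPolynomial.pderiv i (f j)))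

/-- `X_f` has points over the real numbers and over all the `p`-adic fields. -/
def LocallySoluble {s n : ℕ} (f : Fin s → MvPolynomial (Fin (n + 1)) ℤ) : Prop :=
  (∃ y : Fin (n + 1) → ℝ, IsPoint f y) ∧
    ∀ (p : ℕ) [Fact p.Prime], ∃ z : Fin (n + 1) → ℚ_[p], IsPoint f z

/-- the polynomial with rational coefficients given by a polynomial with integral coefficients -/
noncomputable def rat {σ : Type} (f : MvPolynomial σ ℤ) : MvPolynomial σ ℚ :=
  MvPolynomial.map (Int.castRingHom ℚ) f

/-- the ideal of `ℚ[x]` generated by the forms `f j` -/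
noncomputable def ideal {s n : ℕ} (f : Fin s → MvPolynomial (Fin (n + 1)) ℤ) :
    Ideal (MvPolynomial (Fin (n + 1)) ℚ) :=
  Ideal.span (Set.range fun j => rat (f j))

/-- The polynomial `P(x, w)` in `w` has a root in the field of fractions of `ℚ[x] / (f)` (the ideal
`(f)` of `ℚ[x]` generated by the `f j` being prime): there are `A`, `B` with `B ∉ (f)` and
`∑ P_j A ^ j B ^ (N - j) ∈ (f)`, where `N` is the degree of `P`. If the coefficients of `P` are
homogeneous of one and the same degree this means that `P` has a root in the function field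
`ℚ(X_f)`. -/
def RootOn {s n : ℕ} (f : Fin s → MvPolynomial (Fin (n + 1)) ℤ)
    (P : (MvPolynomial (Fin (n + 1)) ℤ)[X]) : Prop :=
  ∃ A B : MvPolynomial (Fin (n + 1)) ℚ, B ∉ ideal f ∧
    ∑ j ∈ Finset.range (P.natDegree + 1),
      rat (P.coeff j) * A ^ j * B ^ (P.natDegree - j) ∈ ideal f

/-- The polynomials `P(x, w)` in `w` of degree at most `m` whose coefficients are homogeneous of one
and the same degree `D ≤ m` and have integral coefficients of absolute value at most `m`, and which
have no root in the function field of `X_f`. Whether the polynomial `P(x, w)` has a rational root `w`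
only depends on the point `x` of `X_f(ℚ)`; the sets of the points `x` of `X_f(ℚ)` for which it has one
and their subsets, for all `m`, are the thin subsets of `X_f(ℚ)`. -/
def Covers {s n : ℕ} (f : Fin s → MvPolynomial (Fin (n + 1)) ℤ) (m : ℕ) :
    Set (MvPolynomial (Fin (n + 1)) ℤ)[X] :=
  {P | P.natDegree ≤ m ∧ (∃ D, D ≤ m ∧ ∀ j, (P.coeff j).IsHomogeneous D) ∧
    (∀ j u, |(P.coeff j).coeff u| ≤ (m : ℤ)) ∧ ¬ RootOn f P}

/-- The value of `P` at the rational vector `x` and the rational number `w`. -/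
noncomputable def value {n : ℕ} (P : (MvPolynomial (Fin (n + 1)) ℤ)[X]) (x : Fin (n + 1) → ℚ)
    (w : ℚ) : ℚ :=
  P.eval₂ (MvPolynomial.eval₂Hom (Int.castRingHom ℚ) x) w

/-- Weak approximation for `X_f`, to precision `1 / m` at the real place and at the primes up to
`m`, by rational points outside the thin subsets of `X_f(ℚ)` of complexity at most `m`: for all real
points `y` and `p`-adic points `z p` of `X_f`, one for each prime `p`, there is a rational point `x`
of `X_f` such that, after multiplying the homogeneous coordinates of `x` by a nonzero number of the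
completion, they differ from those of `y` by at most `‖y‖ / m` and from those of `z p`, `p ≤ m`, by at
most `‖z p‖ / m` (`‖·‖` is the largest absolute value of a coordinate), and such that `P(x, w)` has no
rational root `w` for all the `P ∈ Covers f m`. -/
def ApproximationOutsideThinSets {s n : ℕ} (m : ℕ) (f : Fin s → MvPolynomial (Fin (n + 1)) ℤ) :
    Prop :=
  ∀ (z : ∀ (p : ℕ) [Fact p.Prime], Fin (n + 1) → ℚ_[p]) (y : Fin (n + 1) → ℝ),
    (∀ (p : ℕ) [Fact p.Prime], IsPoint f (z p)) → IsPoint f y →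
    ∃ x : Fin (n + 1) → ℚ, IsPoint f x ∧
      (∀ (p : ℕ) [Fact p.Prime], p ≤ m → ∃ c : ℚ_[p], c ≠ 0 ∧
        ∀ i, ‖z p i - c * (x i : ℚ_[p])‖ ≤ ‖z p‖ / m) ∧
      (∃ c : ℝ, c ≠ 0 ∧ ∀ i, |y i - c * (x i : ℝ)| ≤ ‖y‖ / m) ∧
      ∀ P ∈ Covers f m, ∀ w : ℚ, value P x w ≠ 0

theorem eval_rat {n : ℕ} (g : MvPolynomial (Fin (n + 1)) ℤ) (x : Fin (n + 1) → ℚ) :
    MvPolynomial.eval x (rat g) = MvPolynomial.aeval x g := by
  unfold rat
  rw [MvPolynomial.eval_map, MvPolynomial.aeval_def]
  rfl

/-- the elements of the ideal `(f)` vanish at the points of `X_f` -/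
theorem eval_ideal {s n : ℕ} {f : Fin s → MvPolynomial (Fin (n + 1)) ℤ} {x : Fin (n + 1) → ℚ}
    (hx : IsPoint f x) {g : MvPolynomial (Fin (n + 1)) ℚ} (hg : g ∈ ideal f) :
    MvPolynomial.eval x g = 0 := by
  have h1 : ideal f ≤ RingHom.ker (MvPolynomial.eval x) := by
    unfold ideal
    rw [Ideal.span_le]
    rintro _ ⟨j, rfl⟩
    rw [SetLike.mem_coe, RingHom.mem_ker, eval_rat]
    exact hx.2 j
  exact (RingHom.mem_ker).mp (h1 hg)

theorem noRoot_C {n : ℕ} {g : MvPolynomial (Fin (n + 1)) ℤ} (hg : g ≠ 0) :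
    Pool.Agent.Y214.HB.NoRoot (C g) := by
  intro r
  unfold Pool.Agent.Y214.HB.toK
  rw [map_C, eval_C, Ne, FaithfulSMul.algebraMap_eq_zero_iff]
  exact hg

/-- A root in the field of rational functions gives a root on `X_f`, or the leading coefficient
belongs to the ideal `(f)`. -/
theorem mem_of_root {s n : ℕ} {f : Fin s → MvPolynomial (Fin (n + 1)) ℤ}
    {P : (MvPolynomial (Fin (n + 1)) ℤ)[X]} (hP : ¬ RootOn f P)
    (hr : ¬ Pool.Agent.Y214.HB.NoRoot P) : rat P.leadingCoeff ∈ ideal f := by
  unfold Pool.Agent.Y214.HB.NoRoot Pool.Agent.Y214.HB.toK at hr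
  push Not at hr
  obtain ⟨r, hr⟩ := hr
  rw [eval_map_algebraMap] at hr
  obtain ⟨A, hA⟩ : ∃ A, A = IsFractionRing.num (MvPolynomial (Fin (n + 1)) ℤ) r := ⟨_, rfl⟩
  obtain ⟨B, hB⟩ : ∃ B : MvPolynomial (Fin (n + 1)) ℤ,
      B = (IsFractionRing.den (MvPolynomial (Fin (n + 1)) ℤ) r : _) := ⟨_, rfl⟩
  have h1 : B ∣ P.leadingCoeff := by
    rw [hB]
    exact den_dvd_of_is_root hr
  have h2 : ∑ j ∈ Finset.range (P.natDegree + 1),
      P.coeff j * A ^ j * B ^ (P.natDegree - j) = 0 := by
    have h3 := num_isRoot_scaleRoots_of_aeval_eq_zero hr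
    rw [← hA, ← hB, IsRoot.def, eval_eq_sum_range, natDegree_scaleRoots] at h3
    rw [← h3]
    refine Finset.sum_congr rfl fun j _ => ?_
    rw [coeff_scaleRoots]
    ring
  have h4 : ∑ j ∈ Finset.range (P.natDegree + 1),
      rat (P.coeff j) * (rat A) ^ j * (rat B) ^ (P.natDegree - j) = 0 := by
    have h5 := congrArg rat h2
    unfold rat at h5 ⊢
    rw [map_sum, map_zero] at h5
    rw [← h5]
    refine Finset.sum_congr rfl fun j _ => ?_
    rw [map_mul, map_mul, map_pow, map_pow]
  by_contra hcon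
  apply hP
  refine ⟨rat A, rat B, fun h => hcon ?_, ?_⟩
  · obtain ⟨q, hq⟩ := h1
    have h6 : rat P.leadingCoeff = rat q * rat B := by
      unfold rat
      rw [hq, map_mul, mul_comm]
    rw [h6]
    exact Ideal.mul_mem_left _ _ h
  · rw [h4]
    exact Ideal.zero_mem _

theorem approx_of_wap {s n m : ℕ} {f : Fin s → MvPolynomial (Fin (n + 1)) ℤ}
    (h : Pool.Agent.K3h34.HP.WAPS m f
      (Pool.Agent.Y214.HB.Ptot Pool.Agent.Y420.HB.t_FIN n m)) :
    ApproximationOutsideThinSets m f := by
  intro z y hz hy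
  obtain ⟨x, hx0, hxf, hx1, hx2, hx3⟩ := h z y hz hy.1 hy.2
  have hx : IsPoint f x := ⟨hx0, hxf⟩
  refine ⟨x, hx, hx1, hx2, fun P hP w => ?_⟩
  obtain ⟨hdeg, ⟨D, hD, hPD⟩, hc, hno⟩ := hP
  have hval : value P x w = (P.map (Pool.Agent.Y214.HB.evQ x)).eval w := by
    rw [eval_map]
    rfl
  rw [hval]
  by_cases hr : Pool.Agent.Y214.HB.NoRoot P
  · exact Pool.Agent.Y214.HB.ptot_eval _ (hx3 w) ⟨hdeg, ⟨D, hD, hPD⟩, hc, hr⟩
  · exfalso
    by_cases hP0 : P = 0
    · apply hno
      refine ⟨0, 1, fun h1 => ?_, ?_⟩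
      · have h2 := eval_ideal hx h1
        rw [map_one] at h2
        exact one_ne_zero h2
      · rw [hP0]
        have h3 : ∀ j ∈ Finset.range ((0 : (MvPolynomial (Fin (n + 1)) ℤ)[X]).natDegree + 1),
            rat ((0 : (MvPolynomial (Fin (n + 1)) ℤ)[X]).coeff j) *
            (0 : MvPolynomial (Fin (n + 1)) ℚ) ^ j * 1 ^
            ((0 : (MvPolynomial (Fin (n + 1)) ℤ)[X]).natDegree - j) = 0 := by
          intro j _
          unfold rat
          rw [coeff_zero, map_zero, zero_mul, zero_mul]
        rw [Finset.sum_eq_zero h3]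
        exact Ideal.zero_mem _
    · have hlc : P.leadingCoeff ≠ 0 := leadingCoeff_ne_zero.2 hP0
      have h1 := eval_ideal hx (mem_of_root hno hr)
      rw [eval_rat] at h1
      have hmem : (C P.leadingCoeff : (MvPolynomial (Fin (n + 1)) ℤ)[X]) ∈
          Pool.Agent.Y214.HB.Cov n m := by
        refine ⟨by rw [natDegree_C]; exact Nat.zero_le _, ⟨D, hD, fun j => ?_⟩, fun j u => ?_,
          noRoot_C hlc⟩
        · rw [coeff_C]
          split_ifs
          · exact hPD _
          · exact MvPolynomial.isHomogeneous_zero _ _ _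
        · rw [coeff_C]
          split_ifs
          · exact hc _ u
          · rw [MvPolynomial.coeff_zero, abs_zero]
            exact Nat.cast_nonneg _
      have h2 := Pool.Agent.Y214.HB.ptot_eval _ (hx3 0) hmem
      rw [map_C, eval_C] at h2
      apply h2
      rw [← h1, MvPolynomial.aeval_def]
      rfl

theorem smooth_iff {s n : ℕ} (f : Fin s → MvPolynomial (Fin (n + 1)) ℤ) :
    Pool.Agent.Y697.C13.SmoothS f ↔ Smooth f := by
  constructor
  · intro hf K _ _ x hx
    rw [Fintype.linearIndependent_iff]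
    intro l hl
    by_contra hcon
    push Not at hcon
    obtain ⟨j, hj⟩ := hcon
    obtain ⟨i, hi⟩ := hf K x l hx.1 (fun h => hj (congrFun h j)) hx.2
    apply hi
    have h1 := congrFun hl i
    rw [Finset.sum_apply] at h1
    simpa using h1
  · intro hf K _ _ x l hx hl h0
    by_contra hcon
    push Not at hcon
    apply hl
    funext j
    refine (Fintype.linearIndependent_iff.mp (hf K x ⟨hx, h0⟩)) l ?_ j
    funext i
    rw [Finset.sum_apply]
    simpa using hcon i

/-- Let `s ≥ 1`, `d j ≥ 2`, `n ≥ 3` and `∑ d j ≤ n`. There is a function `m` tending to infinity such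
that 100% of the everywhere locally soluble smooth complete intersections `X_f` of `s` hypersurfaces
of the degrees `d j` and of height at most `H` in `ℙⁿ` have rational points within `1 / m(H)` of
arbitrary local points at the real place and at the primes up to `m(H)` and outside all the thin
subsets of `X_f(ℚ)` of complexity at most `m(H)`. -/
theorem result (s n : ℕ) (d : Fin s → ℕ) (hs : 1 ≤ s) (hn : 3 ≤ n) (h2 : ∀ j, 2 ≤ d j)
    (hd : ∑ j, d j ≤ n) :
    ∃ m : ℕ → ℕ, Tendsto m atTop atTop ∧
      Tendsto (fun H : ℕ =>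
        (({f | f ∈ Systems n d H ∧ Smooth f ∧ LocallySoluble f ∧
          ApproximationOutsideThinSets (m H) f} : Set _).ncard : ℝ) /
        (({f | f ∈ Systems n d H ∧ Smooth f ∧ LocallySoluble f} : Set _).ncard : ℝ))
      atTop (nhds 1) := by
  obtain ⟨e, he⟩ : ∃ e : Fin s → ℕ, e = fun j => d j - 2 := ⟨_, rfl⟩
  have hde : ∀ j, d j = e j + 2 := by
    intro j
    rw [he]
    have := h2 j
    simp only
    omega
  have hd' : ∑ j, (e j + 2) ≤ n := by
    rw [← Finset.sum_congr rfl (fun j _ => hde j)]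
    exact hd
  have hsys : ∀ H, Systems n d H = Pool.Agent.K3h34.HP.Fs n e H := by
    intro H
    ext f
    unfold Systems Pool.Agent.K3h34.HP.Fs
    simp only [Set.mem_ofPred_eq, hde]
  obtain ⟨m, hm, hlim⟩ := Pool.Agent.K3h34.HP.main_of hs hn hd' Pool.Agent.K3h34.HP.tstd
    Pool.Agent.K3h34.HP.fixs Pool.Agent.Y420.HB.t_FIN
  refine ⟨m, hm, ?_⟩
  have hfin : ∀ H, (Systems n d H).Finite := fun H => by
    rw [hsys H]
    exact Pool.Agent.K3h34.HP.fs_finite e H
  have hden : ∀ H : ℕ, ({f | f ∈ Pool.Agent.K3h34.HP.Fs n e H ∧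
      Pool.Agent.Y697.C13.SmoothS f ∧ Pool.Agent.Y716.C.ElsS f} : Set _) =
      {f | f ∈ Systems n d H ∧ Smooth f ∧ LocallySoluble f} := by
    intro H
    ext f
    simp only [Set.mem_ofPred_eq]
    rw [smooth_iff, hsys H]
    exact Iff.rfl
  refine tendsto_of_tendsto_of_tendsto_of_le_of_le hlim tendsto_const_nhds
    (fun H => ?_) (fun H => ?_)
  · simp only
    rw [hden H]
    apply div_le_div_of_nonneg_right _ (Nat.cast_nonneg _)
    have hsub : {f | f ∈ Pool.Agent.K3h34.HP.Fs n e H ∧ Pool.Agent.Y697.C13.SmoothS f ∧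
        Pool.Agent.Y716.C.ElsS f ∧
        Pool.Agent.K3h34.HP.WAPS (m H) f
          (Pool.Agent.Y214.HB.Ptot Pool.Agent.Y420.HB.t_FIN n (m H))} ⊆
        {f | f ∈ Systems n d H ∧ Smooth f ∧ LocallySoluble f ∧
        ApproximationOutsideThinSets (m H) f} :=
      fun f hf => ⟨by rw [hsys H]; exact hf.1, (smooth_iff f).1 hf.2.1, hf.2.2.1,
        approx_of_wap hf.2.2.2⟩
    exact (Nat.cast_le (α := ℝ)).mpr
      (Set.ncard_le_ncard hsub ((hfin H).subset (fun f hf => hf.1)))
  · apply div_le_one_of_le₀ _ (Nat.cast_nonneg _)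
    have hsub : {f | f ∈ Systems n d H ∧ Smooth f ∧ LocallySoluble f ∧
        ApproximationOutsideThinSets (m H) f} ⊆
        {f | f ∈ Systems n d H ∧ Smooth f ∧ LocallySoluble f} :=
      fun f hf => ⟨hf.1, hf.2.1, hf.2.2.1⟩
    exact (Nat.cast_le (α := ℝ)).mpr
      (Set.ncard_le_ncard hsub ((hfin H).subset (fun f hf => hf.1)))

end Pool.Agent.Results.MP_87f965_ag.RandomCompleteIntersections
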