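import Pool.Agent.K3h37.RP.Asm

/-!
# The Hilbert property for 100% of the hypersurfaces in products of projective spaces over `ℚ`

Let `k ≥ 2`, `n i ≥ 1`, `d i ≥ 2` (`i < k`) with `d i ≤ n i` for at least one `i`. The smooth
hypersurfaces `X_f : f = 0` of multidegree `(d 0, d 1, …)` in `ℙ^(n 0) × ℙ^(n 1) × …` are then
geometrically integral, of dimension at least two, rationally connected and algebraically simply
connected. Among those `X_f` which have points over the real numbers and over all the `p`-adic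
fields, `f` running over the integral multihomogeneous forms with coefficients bounded by `H`, a
proportion tending to `1` as `H → ∞` has the Hilbert property up to complexity `m(H)`, where
`m(H) → ∞`: there are rational points of `X_f` outside all the thin subsets of `X_f(ℚ)` of
complexity at most `m(H)`; these points can even be chosen within `1 / m(H)` of arbitrary points of
`X_f` over the real numbers and over the `p`-adic fields with `p ≤ m(H)`.
-/

set_option autoImplicit false

namespace Pool.Agent.Results.MP_87f965_ag.RandomProducts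

open Polynomial Filter

/-- The forms of multidegree `d` in `k` blocks of variables, the block `i` having `n i + 1`
variables, whose coefficients are integers of absolute value at most `H`. -/
def Forms {k : ℕ} (n d : Fin k → ℕ) (H : ℕ) :
    Set (MvPolynomial (Σ i : Fin k, Fin (n i + 1)) ℤ) :=
  {f | (∀ s ∈ f.support, ∀ i : Fin k, ∑ j : Fin (n i + 1), s ⟨i, j⟩ = d i) ∧
    ∀ s, |f.coeff s| ≤ (H : ℤ)}

/-- The block `i` of a vector: homogeneous coordinates of its component in `ℙ^(n i)`. -/
def block {k : ℕ} {n : Fin k → ℕ} {K : Type} (x : (Σ i : Fin k, Fin (n i + 1)) → K)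
    (i : Fin k) : Fin (n i + 1) → K := fun j => x ⟨i, j⟩

/-- `x` represents a point over the field `K` of the hypersurface `X_f : f = 0` in
`ℙ^(n 0) × ℙ^(n 1) × …`: all its blocks are different from zero and `f(x) = 0`. -/
def IsPoint {k : ℕ} {n : Fin k → ℕ} {K : Type} [Field K]
    (f : MvPolynomial (Σ i : Fin k, Fin (n i + 1)) ℤ)
    (x : (Σ i : Fin k, Fin (n i + 1)) → K) : Prop :=
  (∀ i : Fin k, block x i ≠ 0) ∧ MvPolynomial.aeval x f = 0

/-- The hypersurface `X_f` is smooth: no point of `X_f` over a field of characteristic zero is a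
zero of all the partial derivatives of `f`. -/
def Smooth {k : ℕ} {n : Fin k → ℕ}
    (f : MvPolynomial (Σ i : Fin k, Fin (n i + 1)) ℤ) : Prop :=
  ∀ (K : Type) [Field K] [CharZero K] (x : (Σ i : Fin k, Fin (n i + 1)) → K), IsPoint f x →
    ∃ v, MvPolynomial.aeval x (MvPolynomial.pderiv v f) ≠ 0

/-- The hypersurface `X_f` has points over the real numbers and over all the `p`-adic fields. -/
def LocallySoluble {k : ℕ} {n : Fin k → ℕ}
    (f : MvPolynomial (Σ i : Fin k, Fin (n i + 1)) ℤ) : Prop :=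
  (∃ y : (Σ i : Fin k, Fin (n i + 1)) → ℝ, IsPoint f y) ∧
    ∀ (p : ℕ) [Fact p.Prime], ∃ z : (Σ i : Fin k, Fin (n i + 1)) → ℚ_[p], IsPoint f z

/-- the polynomial with rational coefficients given by a polynomial with integral coefficients -/
noncomputable def rat {σ : Type} (f : MvPolynomial σ ℤ) : MvPolynomial σ ℚ :=
  MvPolynomial.map (Int.castRingHom ℚ) f

/-- The polynomial `P(x, w)` in `w` has a root in the field of fractions of `ℚ[x] / (f)` (`f` being
irreducible over `ℚ`): there are `A`, `B` with `B` not divisible by `f` such that `f` divides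
`∑ P_j A ^ j B ^ (N - j)`, where `N` is the degree of `P`. If the coefficients of `P` are
multihomogeneous of one and the same multidegree this means that `P` has a root in the function
field `ℚ(X_f)`. -/
def RootOn {σ : Type} (f : MvPolynomial σ ℤ) (P : (MvPolynomial σ ℤ)[X]) : Prop :=
  ∃ A B : MvPolynomial σ ℚ, ¬ rat f ∣ B ∧
    rat f ∣ ∑ j ∈ Finset.range (P.natDegree + 1),
      rat (P.coeff j) * A ^ j * B ^ (P.natDegree - j)

/-- The polynomials `P(x, w)` in `w` of degree at most `m` whose coefficients are multihomogeneous of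
one and the same multidegree `e` with `e i ≤ m` and have integral coefficients of absolute value at
most `m`, and which have no root in the function field of `X_f`. Whether the polynomial `P(x, w)`
has a rational root `w` only depends on the point `x` of `X_f(ℚ)`; the sets of the points `x` of
`X_f(ℚ)` for which it has one and their subsets, for all `m`, are the thin subsets of `X_f(ℚ)`. -/
def Covers {k : ℕ} {n : Fin k → ℕ} (f : MvPolynomial (Σ i : Fin k, Fin (n i + 1)) ℤ) (m : ℕ) :
    Set (MvPolynomial (Σ i : Fin k, Fin (n i + 1)) ℤ)[X] :=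
  {P | P.natDegree ≤ m ∧
    (∃ e : Fin k → ℕ, (∀ i, e i ≤ m) ∧ ∀ j, ∀ s ∈ (P.coeff j).support, ∀ i : Fin k,
      ∑ l : Fin (n i + 1), s ⟨i, l⟩ = e i) ∧
    (∀ j s, |(P.coeff j).coeff s| ≤ (m : ℤ)) ∧ ¬ RootOn f P}

/-- The value of `P` at the rational vector `x` and the rational number `w`. -/
noncomputable def value {σ : Type} (P : (MvPolynomial σ ℤ)[X]) (x : σ → ℚ) (w : ℚ) : ℚ :=
  P.eval₂ (MvPolynomial.eval₂Hom (Int.castRingHom ℚ) x) w

/-- Weak approximation for `X_f`, to precision `1 / m` at the real place and at the primes up to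
`m`, by rational points outside the thin subsets of `X_f(ℚ)` of complexity at most `m`: for all real
points `y` and `p`-adic points `z p` of `X_f`, one for each prime `p`, there is a rational point `x`
of `X_f` such that in each factor `ℙ^(n i)`, after multiplying the homogeneous coordinates of `x` by
a nonzero number of the completion, they differ from those of `y` by at most `‖y‖ / m` and from
those of `z p`, `p ≤ m`, by at most `‖z p‖ / m` (`‖·‖` is the largest absolute value of the
homogeneous coordinates in this factor), and such that `P(x, w)` has no rational root `w` for all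
the `P ∈ Covers f m`. -/
def ApproximationOutsideThinSets (m : ℕ) {k : ℕ} {n : Fin k → ℕ}
    (f : MvPolynomial (Σ i : Fin k, Fin (n i + 1)) ℤ) : Prop :=
  ∀ (z : ∀ (p : ℕ) [Fact p.Prime], (Σ i : Fin k, Fin (n i + 1)) → ℚ_[p])
    (y : (Σ i : Fin k, Fin (n i + 1)) → ℝ),
    (∀ (p : ℕ) [Fact p.Prime], IsPoint f (z p)) → IsPoint f y →
    ∃ x : (Σ i : Fin k, Fin (n i + 1)) → ℚ, IsPoint f x ∧
      (∀ (p : ℕ) [Fact p.Prime], p ≤ m → ∀ i : Fin k, ∃ c : ℚ_[p], c ≠ 0 ∧
        ∀ j : Fin (n i + 1), ‖z p ⟨i, j⟩ - c * (x ⟨i, j⟩ : ℚ_[p])‖ ≤ ‖block (z p) i‖ / m) ∧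
      (∀ i : Fin k, ∃ c : ℝ, c ≠ 0 ∧
        ∀ j : Fin (n i + 1), |y ⟨i, j⟩ - c * (x ⟨i, j⟩ : ℝ)| ≤ ‖block y i‖ / m) ∧
      ∀ P ∈ Covers f m, ∀ w : ℚ, value P x w ≠ 0

theorem value_eq {σ : Type} (P : (MvPolynomial σ ℤ)[X]) (x : σ → ℚ) (w : ℚ) :
    value P x w = (P.map (Pool.Agent.K3h37.RP.evV x)).eval w := by
  rw [eval_map]
  rfl

theorem eval_rat {σ : Type} (g : MvPolynomial σ ℤ) (x : σ → ℚ) :
    MvPolynomial.eval x (rat g) = MvPolynomial.aeval x g := by
  unfold rat
  rw [MvPolynomial.eval_map, MvPolynomial.aeval_def]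
  rfl

theorem noRoot_C {σ : Type} {g : MvPolynomial σ ℤ} (hg : g ≠ 0) :
    Pool.Agent.K3h37.RP.NoRootV (C g) := by
  intro r
  rw [aeval_C, Ne, FaithfulSMul.algebraMap_eq_zero_iff]
  exact hg

/-- A root in the field of rational functions gives a root on `X_f`, or the leading coefficient is
divisible by `f`. -/
theorem dvd_of_root {σ : Type} {f : MvPolynomial σ ℤ} {P : (MvPolynomial σ ℤ)[X]}
    (hP : ¬ RootOn f P) (hr : ¬ Pool.Agent.K3h37.RP.NoRootV P) :
    rat f ∣ rat P.leadingCoeff := by
  unfold Pool.Agent.K3h37.RP.NoRootV at hr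
  push Not at hr
  obtain ⟨r, hr⟩ := hr
  obtain ⟨A, hA⟩ : ∃ A, A = IsFractionRing.num (MvPolynomial σ ℤ) r := ⟨_, rfl⟩
  obtain ⟨B, hB⟩ : ∃ B : MvPolynomial σ ℤ, B = (IsFractionRing.den (MvPolynomial σ ℤ) r : _) :=
    ⟨_, rfl⟩
  have h1 : B ∣ P.leadingCoeff := by
    rw [hB]
    exact den_dvd_of_is_root hr
  have h2 : ∑ j ∈ Finset.range (P.natDegree + 1),
      P.coeff j * A ^ j * B ^ (P.natDegree - j) = 0 := by
    have h3 := num_isRoot_scaleRoots_of_aeval_eq_zero hr
    rw [← hA, ← hB, IsRoot.def, eval_eq_sum_range, natDegree_scaleRoots] at h3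
    rw [← h3]
    refine Finset.sum_congr rfl fun j _ => ?_
    rw [coeff_scaleRoots]
    ring
  have h4 : ∑ j ∈ Finset.range (P.natDegree + 1),
      rat (P.coeff j) * (rat A) ^ j * (rat B) ^ (P.natDegree - j) = 0 := by
    have h5 := congrArg rat h2
    unfold rat at h5 ⊢
    rw [map_sum, map_zero] at h5
    rw [← h5]
    refine Finset.sum_congr rfl fun j _ => ?_
    rw [map_mul, map_mul, map_pow, map_pow]
  by_contra hcon
  apply hP
  refine ⟨rat A, rat B, fun h => hcon (h.trans ?_), ?_⟩
  · unfold rat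
    exact map_dvd _ h1
  · rw [h4]
    exact dvd_zero _

theorem approx_of_wap {k m : ℕ} {n : Fin k → ℕ}
    {f : MvPolynomial (Σ i : Fin k, Fin (n i + 1)) ℤ}
    (h : Pool.Agent.K3h37.RP.WAPV m f (Pool.Agent.K3h37.RP.PtotV n m)) :
    ApproximationOutsideThinSets m f := by
  intro z y hz hy
  obtain ⟨x, hx0, hxf, hx1, hx2, hx3⟩ := h z y hz hy.1 hy.2
  refine ⟨x, ⟨hx0, hxf⟩, hx1, hx2, fun P hP w => ?_⟩
  obtain ⟨hdeg, ⟨e, he, hPe⟩, hc, hno⟩ := hP
  have hfx : ∀ g : MvPolynomial (Σ i : Fin k, Fin (n i + 1)) ℤ, rat f ∣ rat g →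
      MvPolynomial.aeval x g = 0 := by
    rintro g ⟨q, hq⟩
    rw [← eval_rat, hq, map_mul, eval_rat, hxf, zero_mul]
  rw [value_eq]
  by_cases hr : Pool.Agent.K3h37.RP.NoRootV P
  · exact Pool.Agent.K3h37.RP.ptot_eval (hx3 w) ⟨hdeg, ⟨e, he, hPe⟩, hc, hr⟩
  · exfalso
    by_cases hP0 : P = 0
    · apply hno
      refine ⟨0, 1, fun h1 => ?_, ?_⟩
      · have h2 := hfx 1 (by
          unfold rat at h1 ⊢
          rw [map_one]
          exact h1)
        rw [map_one] at h2
        exact one_ne_zero h2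
      · rw [hP0]
        have h3 : ∀ j ∈ Finset.range ((0 : (MvPolynomial (Σ i : Fin k, Fin (n i + 1)) ℤ)[X]).natDegree
            + 1), rat ((0 : (MvPolynomial (Σ i : Fin k, Fin (n i + 1)) ℤ)[X]).coeff j) *
            (0 : MvPolynomial (Σ i : Fin k, Fin (n i + 1)) ℚ) ^ j * 1 ^
            ((0 : (MvPolynomial (Σ i : Fin k, Fin (n i + 1)) ℤ)[X]).natDegree - j) = 0 := by
          intro j _
          unfold rat
          rw [coeff_zero, map_zero, zero_mul, zero_mul]
        rw [Finset.sum_eq_zero h3]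
        exact dvd_zero _
    · have hlc : P.leadingCoeff ≠ 0 := leadingCoeff_ne_zero.2 hP0
      have h1 := hfx _ (dvd_of_root hno hr)
      have hmem : (C P.leadingCoeff : (MvPolynomial (Σ i : Fin k, Fin (n i + 1)) ℤ)[X]) ∈
          Pool.Agent.K3h37.RP.CovV n m := by
        refine ⟨by rw [natDegree_C]; exact Nat.zero_le _, ⟨e, he, fun j => ?_⟩, fun j s => ?_,
          noRoot_C hlc⟩
        · rw [coeff_C]
          split_ifs
          · exact hPe _
          · intro s hs
            simp at hs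
        · rw [coeff_C]
          split_ifs
          · exact hc _ s
          · rw [MvPolynomial.coeff_zero, abs_zero]
            exact Nat.cast_nonneg _
      have h2 := Pool.Agent.K3h37.RP.ptot_eval (hx3 0) hmem
      rw [map_C, eval_C] at h2
      apply h2
      rw [← h1, MvPolynomial.aeval_def]
      rfl

/-- Let `k ≥ 2`, `n i ≥ 1`, `d i ≥ 2` and `d i ≤ n i` for at least one `i`. There is a function `m`
tending to infinity such that 100% of the everywhere locally soluble smooth hypersurfaces `X_f` of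
multidegree `d` and height at most `H` in `ℙ^(n 0) × … × ℙ^(n (k - 1))` have rational points within
`1 / m(H)` of arbitrary local points at the real place and at the primes up to `m(H)` and outside
all the thin subsets of `X_f(ℚ)` of complexity at most `m(H)`. -/
theorem result (k : ℕ) (n d : Fin k → ℕ) (hk : 2 ≤ k) (hn : ∀ i, 1 ≤ n i) (hd : ∀ i, 2 ≤ d i)
    (hrc : ∃ i, d i ≤ n i) :
    ∃ m : ℕ → ℕ, Tendsto m atTop atTop ∧
      Tendsto (fun H : ℕ =>
        (({f | f ∈ Forms n d H ∧ Smooth f ∧ LocallySoluble f ∧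
          ApproximationOutsideThinSets (m H) f} : Set _).ncard : ℝ) /
        (({f | f ∈ Forms n d H ∧ Smooth f ∧ LocallySoluble f} : Set _).ncard : ℝ))
      atTop (nhds 1) := by
  obtain ⟨b, hb⟩ := hrc
  obtain ⟨m, hm, hlim⟩ := Pool.Agent.K3h37.RP.mainV hk hn hd b hb
  refine ⟨m, hm, ?_⟩
  have hfin : ∀ H, (Forms n d H).Finite := fun H => Pool.Agent.K3h37.RP.Fm_fin n d H
  have hs : ∀ f : MvPolynomial (Σ i : Fin k, Fin (n i + 1)) ℤ,
      Pool.Agent.K3h37.RP.SmoothV f ↔ Smooth f := by
    intro f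
    constructor
    · intro h K _ _ x hx
      exact h K x hx.1 hx.2
    · intro h K _ _ x hx0 hx
      exact h K x ⟨hx0, hx⟩
  have hden : ∀ H : ℕ, ({f | f ∈ Pool.Agent.K3h37.RP.FmV n d H ∧
      Pool.Agent.K3h37.RP.SmoothV f ∧ Pool.Agent.Y716.M.ElsB f} : Set _) =
      {f | f ∈ Forms n d H ∧ Smooth f ∧ LocallySoluble f} := by
    intro H
    ext f
    simp only [Set.mem_ofPred_eq]
    rw [hs]
    exact Iff.rfl
  refine tendsto_of_tendsto_of_tendsto_of_le_of_le hlim tendsto_const_nhds
    (fun H => ?_) (fun H => ?_)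
  · simp only
    rw [hden H]
    apply div_le_div_of_nonneg_right _ (Nat.cast_nonneg _)
    have hsub : {f | f ∈ Pool.Agent.K3h37.RP.FmV n d H ∧ Pool.Agent.K3h37.RP.SmoothV f ∧
        Pool.Agent.Y716.M.ElsB f ∧
        Pool.Agent.K3h37.RP.WAPV (m H) f (Pool.Agent.K3h37.RP.PtotV n (m H))} ⊆
        {f | f ∈ Forms n d H ∧ Smooth f ∧ LocallySoluble f ∧
        ApproximationOutsideThinSets (m H) f} :=
      fun f hf => ⟨hf.1, (hs f).1 hf.2.1, hf.2.2.1, approx_of_wap hf.2.2.2⟩
    exact (Nat.cast_le (α := ℝ)).mpr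
      (Set.ncard_le_ncard hsub ((hfin H).subset (fun f hf => hf.1)))
  · apply div_le_one_of_le₀ _ (Nat.cast_nonneg _)
    have hsub : {f | f ∈ Forms n d H ∧ Smooth f ∧ LocallySoluble f ∧
        ApproximationOutsideThinSets (m H) f} ⊆
        {f | f ∈ Forms n d H ∧ Smooth f ∧ LocallySoluble f} :=
      fun f hf => ⟨hf.1, hf.2.1, hf.2.2.1⟩
    exact (Nat.cast_le (α := ℝ)).mpr
      (Set.ncard_le_ncard hsub ((hfin H).subset (fun f hf => hf.1)))

end Pool.Agent.Results.MP_87f965_ag.RandomProducts
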