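import Mathlib
import Pool.Agent.K3h17.HQ.Main

/-!
# The Hilbert property of `V / H` for wreath products and their relatives

Let `k` be any finitely generated field of characteristic zero (for example a number field) and
write `H ∈ 𝓗(k)` if for all linear actions of the finite group `H` on `k^N` (all `N`) all integral
`k`-schemes, locally of finite type, with function field `k(x_1, ..., x_N)^H` (the models of
`V / H`) have the Hilbert property over `k`.

* If `W ∈ 𝓗(k)` and `p : W' → W` is in the class `Cls k` of the file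
  `Pool/Agent/TH444/TW/ClsDef.lean` (for example `W' = (G ≀ S_n)^q ⋊ W`, `G` any finite group,
  `n ≥ ((3 |G| + 2)!)^3`, `W` acting through any homomorphism `W → Aut(G) ≀ S_q`), then
  `W' ∈ 𝓗(k)`.
* `G ≀ S_n ∈ 𝓗(k)` for every finite group `G` and all `n ≥ ((3 |G| + 2)!)^3`.
* Every group `H` with `(G ≀ S_n)' ≤ H ≤ G ≀ S_n` is in `𝓗(k)`, for every finite group `G` and
  `n = m r (2 j + 1)`, `m ≥ 2 |G^ab| + 2` even, `r` large in terms of `G`, `m` and prime to
  `2 |G|`, `j` large in terms of `G`, `m`, `r` with `2 j + 1` prime to `|G|`.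

`HilbertProperty k X p` (file `Pool/Agent/W560/HP/Stm2.lean`) is the Hilbert property of the
`k`-scheme `X` with structure morphism `p`, with covers of degree `> 1`, `HilbertPropertyIso`
(file `Pool/Agent/R70/HC/Defs.lean`) the same with covers which are not isomorphisms, and
`toFF k X p` is the embedding of `k` into the function field of `X`.
-/

set_option autoImplicit false

open AlgebraicGeometry CategoryTheory MvPolynomial
open W560.HP (HilbertProperty toFF)
open Pool.Agent.R70.HC (HilbertPropertyIso)
open Pool.Agent.TH444.TW (Cls)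

namespace Pool.Agent.Results.MP_87f965_ag.WreathQuotients

/-- The wreath product `G ≀ S_n = G^n ⋊ S_n`. -/
abbrev Wreath (G : Type) [Group G] (n : ℕ) : Type :=
  (Fin n → G) ⋊[mulAutArrow] Equiv.Perm (Fin n)

/-- `k` is a finitely generated field of characteristic zero. -/
def FinitelyGenerated (k : Type) [Field k] [CharZero k] : Prop :=
  ∃ S : Finset k, IntermediateField.adjoin ℚ (S : Set k) = ⊤

/-- The rational function `z` in `x_1, ..., x_N` is invariant under the linear substitutions
`x ↦ ρ(h) x`: whenever `z = p / q` with polynomials `p`, `q`, then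
`p(ρ(h) x) q(x) = p(x) q(ρ(h) x)` for all `h`. -/
def IsInvariant {k H : Type} [Field k] [Group H] {N : ℕ} (ρ : H →* GL (Fin N) k)
    (z : FractionRing (MvPolynomial (Fin N) k)) : Prop :=
  ∀ (h : H) (p q : MvPolynomial (Fin N) k), q ≠ 0 → z * algebraMap _ _ q = algebraMap _ _ p →
    aeval (fun i => ∑ j, C ((ρ h : Matrix (Fin N) (Fin N) k) i j) * X j) p * q =
      p * aeval (fun i => ∑ j, C ((ρ h : Matrix (Fin N) (Fin N) k) i j) * X j) q

/-- The function field of the integral `k`-scheme `X` is the field of the invariant rational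
functions in `x_1, ..., x_N` (as an extension of `k`). -/
def IsQuotientModel (k : Type) [Field k] {H : Type} [Group H] {N : ℕ} (ρ : H →* GL (Fin N) k)
    (X : Scheme.{0}) [IsIntegral X] (p : X ⟶ Spec (CommRingCat.of k)) : Prop :=
  ∃ e : X.functionField →+* FractionRing (MvPolynomial (Fin N) k),
    (∀ a : k, e (toFF k X p a) = algebraMap (MvPolynomial (Fin N) k) _ (C a)) ∧
    Set.range e = {z | IsInvariant ρ z}

/-- For all linear actions `ρ` of `H` on `k^N`, `N` arbitrary, all integral `k`-schemes `X`, locally
of finite type, with function field `k(x_1, ..., x_N)^H` have the Hilbert property (if `X` is normal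
also in the form with covers that are not isomorphisms). -/
def QuotientsHP (k H : Type) [Field k] [Group H] : Prop :=
  ∀ (N : ℕ) (ρ : H →* GL (Fin N) k) (X : Scheme.{0}) (_ : IsIntegral X)
    (p : X ⟶ Spec (CommRingCat.of k)), LocallyOfFiniteType p → IsQuotientModel k ρ X p →
      HilbertProperty k X p ∧
        ((∀ x : X, IsIntegrallyClosed (X.presheaf.stalk x)) → HilbertPropertyIso k X p)

theorem result :
    (∀ (k : Type) [Field k] [CharZero k], FinitelyGenerated k → ∀ (W W' : Type) [Group W]
      [Finite W] [Group W'] (p : W' →* W), Cls k p → QuotientsHP k W → QuotientsHP k W') ∧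
    (∀ (G : Type) [Group G] [Finite G] (n : ℕ), ((3 * Nat.card G + 2).factorial) ^ 3 ≤ n →
      ∀ (k : Type) [Field k] [CharZero k], FinitelyGenerated k → QuotientsHP k (Wreath G n)) ∧
    ∀ (G : Type) [Group G] [Finite G] (m : ℕ), 2 * Nat.card (Abelianization G) + 2 ≤ m →
      Even m → ∃ r₀ : ℕ, ∀ r ≥ r₀, r.Coprime (2 * Nat.card G) → ∃ j₀ : ℕ, ∀ j ≥ j₀,
        (2 * j + 1).Coprime (Nat.card G) →
          ∀ H : Subgroup (Wreath G (m * r * (2 * j + 1))),
            commutator (Wreath G (m * r * (2 * j + 1))) ≤ H →
            ∀ (k : Type) [Field k] [CharZero k], FinitelyGenerated k → QuotientsHP k H :=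
  ⟨fun k _ _ hk _ _ _ _ _ p hp h => K3h17.HQ.main_cls k hk p hp h,
    fun G _ _ n hn k _ _ hk => K3h17.HQ.main_wr G n hn k hk,
    fun G _ _ m hm hev => K3h17.HQ.main_int G m hm hev⟩

end Pool.Agent.Results.MP_87f965_ag.WreathQuotients
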